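import Pool.Agent.V11101.PFMain

/-!
# For every `0 < p ≤ 1` there is a p-Banach space isometric to its own Lipschitz free p-space
-/

set_option linter.unusedSectionVars false

open Filter Topology
open Pool.Agent.V11101.PF

namespace Pool.Agent.Results.MP_fdacb0_an.SelfFree

/-- `N` is a `p`-norm on the real vector space `Z` for which `Z` is a `p`-Banach space. -/
structure PBanach (p : ℝ) (Z : Type) [AddCommGroup Z] [Module ℝ Z] (N : Z → ℝ) : Prop where
  nonneg : ∀ x, 0 ≤ N x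
  pos : ∀ x, x ≠ 0 → 0 < N x
  smul : ∀ (a : ℝ) (x : Z), N (a • x) = |a| * N x
  add : ∀ x y, N (x + y) ^ p ≤ N x ^ p + N y ^ p
  complete : ∀ u : ℕ → Z, (∀ ε : ℝ, 0 < ε → ∃ K, ∀ i, K ≤ i → ∀ j, K ≤ j → N (u i - u j) ^ p < ε) →
    ∃ x, Tendsto (fun i => N (u i - x) ^ p) atTop (𝓝 0)

/-- `(F, NF)`, with the canonical map `δ : M → F`, is the Lipschitz free `p`-space over the set `M`
with the `p`-metric `d` and the base point `o`: the universal property. The equivalence says that the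
norm of `T` is the Lipschitz constant of `f`. -/
structure IsFree (p : ℝ) {M : Type} (d : M → M → ℝ) (o : M) (F : Type) [AddCommGroup F]
    [Module ℝ F] (NF : F → ℝ) (δ : M → F) : Prop where
  banach : PBanach p F NF
  base : δ o = 0
  dist : ∀ x y, NF (δ x - δ y) ≤ d x y
  lift : ∀ (Y : Type) [AddCommGroup Y] [Module ℝ Y] (NY : Y → ℝ), PBanach p Y NY →
    ∀ f : M → Y, f o = 0 → (∃ L, ∀ x y, NY (f x - f y) ≤ L * d x y) →
      ∃ T : F →ₗ[ℝ] Y, (∀ x, T (δ x) = f x) ∧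
        (∀ L, 0 ≤ L → ((∀ z, NY (T z) ≤ L * NF z) ↔ ∀ x y, NY (f x - f y) ≤ L * d x y)) ∧
        ∀ T' : F →ₗ[ℝ] Y, (∃ C, ∀ z, NY (T' z) ≤ C * NF z) → (∀ x, T' (δ x) = f x) → T' = T

section

variable {p : ℝ} (hp : 0 < p)

/-- the group norm `N ^ p` -/
@[reducible] noncomputable def PBanach.group {Z : Type} [AddCommGroup Z] [Module ℝ Z] {N : Z → ℝ}
    (h : PBanach p Z N) (hp : 0 < p) : NormedAddCommGroup Z :=
  AddGroupNorm.toNormedAddCommGroup
    { toFun := fun z => N z ^ p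
      map_zero' := by
        have h0 := h.smul 0 0
        rw [zero_smul, abs_zero, zero_mul] at h0
        rw [h0, Real.zero_rpow hp.ne']
      add_le' := h.add
      neg' := fun z => by
        have h0 := h.smul (-1) z
        rw [neg_one_smul, abs_neg, abs_one, one_mul] at h0
        rw [h0]
      eq_zero_of_map_eq_zero' := fun z hz => by
        by_contra hne
        exact (Real.rpow_pos_of_pos (h.pos z hne) p).ne' hz }

theorem PBanach.isPB {Z : Type} [AddCommGroup Z] [Module ℝ Z] {N : Z → ℝ}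
    (h : PBanach p Z N) (hp : 0 < p) :
    @IsPB p Z (h.group hp) _ := by
  let _ := h.group hp
  have hn : ∀ z : Z, ‖z‖ = N z ^ p := fun z => rfl
  refine ⟨fun a z => ?_, ?_⟩
  · rw [hn, hn, h.smul, Real.mul_rpow (abs_nonneg _) (h.nonneg _)]
  · refine Metric.complete_of_cauchySeq_tendsto fun u hu => ?_
    rw [Metric.cauchySeq_iff] at hu
    obtain ⟨x, hx⟩ := h.complete u (fun ε hε => by
      obtain ⟨K, hK⟩ := hu ε hε
      refine ⟨K, fun i hi j hj => ?_⟩
      have := hK i hi j hj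
      rwa [dist_eq_norm, hn] at this)
    refine ⟨x, ?_⟩
    rw [tendsto_iff_norm_sub_tendsto_zero]
    exact hx

theorem pBanach_of_isPB {Z : Type} [NormedAddCommGroup Z] [Module ℝ Z] (h : IsPB p Z) (hp : 0 < p) :
    PBanach p Z (fun z => ‖z‖ ^ (1 / p)) := by
  have hinv : ∀ t : ℝ, 0 ≤ t → (t ^ (1 / p)) ^ p = t := fun t ht => by
    rw [← Real.rpow_mul ht, one_div, inv_mul_cancel₀ hp.ne', Real.rpow_one]
  refine ⟨fun x => Real.rpow_nonneg (norm_nonneg _) _, fun x hx =>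
    Real.rpow_pos_of_pos (norm_pos_iff.2 hx) _, fun a x => ?_, fun x y => ?_, fun u hu => ?_⟩
  · show ‖a • x‖ ^ (1 / p) = |a| * ‖x‖ ^ (1 / p)
    rw [h.smul, Real.mul_rpow (Real.rpow_nonneg (abs_nonneg _) _) (norm_nonneg _),
      ← Real.rpow_mul (abs_nonneg _), mul_one_div_cancel hp.ne', Real.rpow_one]
  · show (‖x + y‖ ^ (1 / p)) ^ p ≤ (‖x‖ ^ (1 / p)) ^ p + (‖y‖ ^ (1 / p)) ^ p
    rw [hinv _ (norm_nonneg _), hinv _ (norm_nonneg _), hinv _ (norm_nonneg _)]
    exact norm_add_le _ _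
  · have hc := h.complete
    have h1 : CauchySeq u := by
      rw [Metric.cauchySeq_iff]
      intro ε hε
      obtain ⟨K, hK⟩ := hu ε hε
      refine ⟨K, fun i hi j hj => ?_⟩
      have h2 : (‖u i - u j‖ ^ (1 / p)) ^ p < ε := hK i hi j hj
      rw [hinv _ (norm_nonneg _)] at h2
      rwa [dist_eq_norm]
    obtain ⟨x, hx⟩ := cauchySeq_tendsto_of_complete h1
    refine ⟨x, ?_⟩
    rw [tendsto_iff_norm_sub_tendsto_zero] at hx
    refine hx.congr fun n => ?_
    show _ = (‖u n - x‖ ^ (1 / p)) ^ p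
    rw [hinv _ (norm_nonneg _)]

/-- `s ^ (1/p) ≤ L t` in terms of `p`-th powers -/
theorem le_iff_pow (hp : 0 < p) {a b L : ℝ} (ha : 0 ≤ a) (hb : 0 ≤ b) (hL : 0 ≤ L) :
    a ≤ L * b ↔ a ^ p ≤ L ^ p * b ^ p := by
  rw [← Real.mul_rpow hL hb, Real.rpow_le_rpow_iff ha (mul_nonneg hL hb) hp]

theorem inv_pow (hp : 0 < p) {t : ℝ} (ht : 0 ≤ t) : (t ^ (1 / p)) ^ p = t := by
  rw [← Real.rpow_mul ht, one_div, inv_mul_cancel₀ hp.ne', Real.rpow_one]

/-- two Lipschitz free spaces over the same space are isometric -/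
theorem IsFree.unique {M : Type} {d : M → M → ℝ} {o : M} {F : Type} [AddCommGroup F]
    [Module ℝ F] {NF : F → ℝ} {δ : M → F} {F' : Type} [AddCommGroup F']
    [Module ℝ F'] {NF' : F' → ℝ} {δ' : M → F'} (h : IsFree p d o F NF δ)
    (h' : IsFree p d o F' NF' δ') : ∃ T : F ≃ₗ[ℝ] F', ∀ z, NF' (T z) = NF z := by
  obtain ⟨T, hT1, hT2, -⟩ := h.lift F' NF' h'.banach δ' h'.base
    ⟨1, fun x y => by rw [one_mul]; exact h'.dist x y⟩
  obtain ⟨S, hS1, hS2, -⟩ := h'.lift F NF h.banach δ h.base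
    ⟨1, fun x y => by rw [one_mul]; exact h.dist x y⟩
  have hT3 : ∀ z, NF' (T z) ≤ NF z := by
    intro z
    have := (hT2 1 zero_le_one).2 (fun x y => by rw [one_mul]; exact h'.dist x y) z
    rwa [one_mul] at this
  have hS3 : ∀ z, NF (S z) ≤ NF' z := by
    intro z
    have := (hS2 1 zero_le_one).2 (fun x y => by rw [one_mul]; exact h.dist x y) z
    rwa [one_mul] at this
  have hST : S.comp T = LinearMap.id := by
    obtain ⟨R, -, -, hR⟩ := h.lift F NF h.banach δ h.base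
      ⟨1, fun x y => by rw [one_mul]; exact h.dist x y⟩
    rw [hR (S.comp T) ⟨1, fun z => by rw [one_mul]; exact (hS3 _).trans (hT3 z)⟩
        (fun x => by rw [LinearMap.comp_apply, hT1, hS1]),
      hR LinearMap.id ⟨1, fun z => by rw [one_mul]; rfl⟩ (fun x => rfl)]
  have hTS : T.comp S = LinearMap.id := by
    obtain ⟨R, -, -, hR⟩ := h'.lift F' NF' h'.banach δ' h'.base
      ⟨1, fun x y => by rw [one_mul]; exact h'.dist x y⟩
    rw [hR (T.comp S) ⟨1, fun z => by rw [one_mul]; exact (hT3 _).trans (hS3 z)⟩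
        (fun x => by rw [LinearMap.comp_apply, hS1, hT1]),
      hR LinearMap.id ⟨1, fun z => by rw [one_mul]; rfl⟩ (fun x => rfl)]
  refine ⟨LinearEquiv.ofLinearMap T S hTS hST, fun z => ?_⟩
  refine le_antisymm (hT3 z) ?_
  have h1 := hS3 (T z)
  have h2 : S (T z) = z := LinearMap.congr_fun hST z
  rwa [h2] at h1

end

/-- For every `0 < p ≤ 1` there is an infinite-dimensional `p`-Banach space `X` which is linearly
isometric to its own Lipschitz free `p`-space. -/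
theorem result (p : ℝ) (hp : 0 < p) (hp1 : p ≤ 1) :
    ∃ (X : Type) (_ : AddCommGroup X) (_ : Module ℝ X) (N : X → ℝ),
      PBanach p X N ∧ ¬ Module.Finite ℝ X ∧
      (∃ δ : X → X, IsFree p (fun x y : X => N (x - y)) 0 X N δ) ∧
      ∀ (F : Type) [AddCommGroup F] [Module ℝ F] (NF : F → ℝ) (δ : X → F),
        IsFree p (fun x y : X => N (x - y)) 0 F NF δ → ∃ T : F ≃ₗ[ℝ] X, ∀ z, N (T z) = NF z := by
  have hfact : Fact (0 < p ∧ p ≤ 1) := ⟨hp, hp1⟩
  have hX := pBanach_of_isPB (isPB_LL (p := p)) hp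
  have hfree : IsFree p (fun x y : LL p => ‖x - y‖ ^ (1 / p)) 0 (LL p)
      (fun z => ‖z‖ ^ (1 / p)) (δL p) := by
    have hdist : ∀ x y : LL p, ‖δL p x - δL p y‖ ^ (1 / p) ≤ ‖x - y‖ ^ (1 / p) := fun x y =>
      Real.rpow_le_rpow (norm_nonneg _) (norm_δL_sub_le x y) (by positivity)
    refine ⟨hX, δL_zero, hdist, ?_⟩
    intro Y _ _ NY hY f hf0 hfL
    let _ := hY.group hp
    have hYpb : IsPB p Y := hY.isPB hp
    have hn : ∀ z : Y, ‖z‖ = NY z ^ p := fun z => rfl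
    -- translation of the bounds
    have hb1 : ∀ (T : LL p →ₗ[ℝ] Y) (L : ℝ), 0 ≤ L →
        ((∀ z, NY (T z) ≤ L * ‖z‖ ^ (1 / p)) ↔ ∀ z, ‖T z‖ ≤ L ^ p * ‖z‖) := by
      intro T L hL
      refine forall_congr' fun z => ?_
      rw [le_iff_pow hp (hY.nonneg _) (Real.rpow_nonneg (norm_nonneg _) _) hL,
        inv_pow hp (norm_nonneg _), hn]
    have hb2 : ∀ (L : ℝ), 0 ≤ L →
        ((∀ x y : LL p, NY (f x - f y) ≤ L * ‖x - y‖ ^ (1 / p)) ↔
          ∀ x y, ‖f x - f y‖ ≤ L ^ p * ‖x - y‖) := by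
      intro L hL
      refine forall_congr' fun x => forall_congr' fun y => ?_
      rw [le_iff_pow hp (hY.nonneg _) (Real.rpow_nonneg (norm_nonneg _) _) hL,
        inv_pow hp (norm_nonneg _), hn]
    -- a nonnegative Lipschitz constant
    obtain ⟨L, hL⟩ := hfL
    have hL' : ∀ x y : LL p, NY (f x - f y) ≤ |L| * ‖x - y‖ ^ (1 / p) := fun x y =>
      (hL x y).trans (mul_le_mul_of_nonneg_right (le_abs_self L)
        (Real.rpow_nonneg (norm_nonneg _) _))
    obtain ⟨U, hU1, hU2⟩ := δL_lift hYpb f hf0 (|L| ^ p) (Real.rpow_nonneg (abs_nonneg _) _)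
      ((hb2 _ (abs_nonneg _)).1 hL')
    have hUc : Continuous U := continuous_of_bound U _ hU2
    have huniq : ∀ T' : LL p →ₗ[ℝ] Y, (∃ C, ∀ z, ‖T' z‖ ≤ C * ‖z‖) → (∀ x, T' (δL p x) = f x) →
        T' = U := by
      rintro T' ⟨C, hC⟩ hT'
      refine LinearMap.ext fun z => ?_
      exact δL_uniq T' U (continuous_of_bound T' C hC) hUc (fun x => by rw [hT', hU1]) z
    refine ⟨U, hU1, fun K hK => ?_, ?_⟩
    · rw [hb1 U K hK]
      constructor
      · intro h
        rw [hb2 K hK]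
        intro x y
        rw [← hU1 x, ← hU1 y, ← map_sub]
        exact (h _).trans (mul_le_mul_of_nonneg_left (norm_δL_sub_le x y)
          (Real.rpow_nonneg hK _))
      · intro h
        rw [hb2 K hK] at h
        obtain ⟨V, hV1, hV2⟩ := δL_lift hYpb f hf0 (K ^ p) (Real.rpow_nonneg hK _) h
        rw [← huniq V ⟨_, hV2⟩ hV1]
        exact hV2
    · rintro T' ⟨C, hC⟩ hT'
      refine huniq T' ⟨|C| ^ p, (hb1 T' |C| (abs_nonneg _)).1 fun z => ?_⟩ hT'
      exact (hC z).trans (mul_le_mul_of_nonneg_right (le_abs_self C)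
        (Real.rpow_nonneg (norm_nonneg _) _))
  refine ⟨LL p, inferInstance, inferInstance, fun z => ‖z‖ ^ (1 / p), hX, not_finite_LL,
    ⟨δL p, hfree⟩, ?_⟩
  intro F _ _ NF δ hF
  exact hF.unique hfree

end Pool.Agent.Results.MP_fdacb0_an.SelfFree
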